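import Pool.Agent.N360.QP.Final

/-!
# Stationary measures of symmetric quasi-periodic walks

For every irrational `α` (in particular every Liouville `α`) and every symmetric environment the
chain on the circle has exactly one stationary probability measure, and the stationary chain is
mixing for the time shift.

Definitions used (all in `Pool.Agent.N360.QP`):
* `T1` is the circle `ℝ/ℤ`, with its Haar probability measure as `volume`;
* `Env`: a continuous `p : T1 → ℝ` with `0 < p y < 1` for every `y`;
* `P E.p a φ y = p y * φ (y + a) + (1 - p y) * φ (y - a)` and `Stationary p a ν` says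
  `∫ P φ dν = ∫ φ dν` for every continuous `φ`;
* `Env.Symm`: `∫ log p = ∫ log (1 - p)`;
* `SmoothT p`: `x ↦ p x` is `C^n` for all `n`;
* `Diophantine α`, `IsLiouville α` as in the problem file;
* `law E a ν` : law on `ℕ → T1` of the Markov chain with initial law `ν` which jumps from `y` to
  `y + a` with probability `p y` and to `y - a` with probability `1 - p y` (Ionescu–Tulcea);
* `IsMixing Q`: `Q (A ∩ θ_k⁻¹ B) → Q A * Q B` for all measurable `A`, `B`, `θ_k` the time shift.
-/

open MeasureTheory
open scoped NNReal

namespace Pool.Agent.Results.MP_8d4b21_pr.UniqueMixing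

open Pool.Agent.N360.QP

theorem result :
    -- the problem as asked: `α` Liouville, `p` smooth and symmetric
    (∀ (E : Env) (α : ℝ), IsLiouville α → SmoothT E.p → E.Symm →
      (∃! ν : Measure T1, IsProbabilityMeasure ν ∧ Stationary E.p (α : T1) ν) ∧
      (∀ ν : Measure T1, IsProbabilityMeasure ν → Stationary E.p (α : T1) ν →
        IsMixing (law E (α : T1) ν))) ∧
    -- the same for every irrational `α` and every Lipschitz symmetric `p`
    (∀ (E : Env) (α : ℝ), Irrational α → (∃ L : ℝ≥0, LipschitzWith L E.p) → E.Symm →
      (∃! ν : Measure T1, IsProbabilityMeasure ν ∧ Stationary E.p (α : T1) ν) ∧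
      (∀ ν : Measure T1, IsProbabilityMeasure ν → Stationary E.p (α : T1) ν →
        IsMixing (law E (α : T1) ν))) :=
  ⟨fun E α hα hp hs => main E α hα.1 (lip_of_smooth hp) hs,
    fun E α hα hL hs => main E α hα hL hs⟩

end Pool.Agent.Results.MP_8d4b21_pr.UniqueMixing
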